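import Pool.Agent.H276R3.FQ.Main

/-! Fermat's equation over quadratic fields: in a nontrivial solution no one of `x, y, z` divides
another; moreover over real quadratic fields and for odd exponents `z ∤ x+y`, `y ∤ z-x`, `x ∤ z-y`. -/

set_option autoImplicit false

namespace Pool.Agent.Results.MP_50a406_nt.IntegralPoints

open Pool.Agent.H276R3.FQ

theorem result (K : Type) [Field K] [NumberField K] (hK : Module.finrank ℚ K = 2)
    (n : ℕ) (h3 : 3 ≤ n) (h4 : n ≠ 4) (x y z : K) (h : x ^ n + y ^ n = z ^ n)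
    (hx : x ≠ 0) (hy : y ≠ 0) (hz : z ≠ 0) :
    ((IsIntegral ℤ (x / z) ∨ IsIntegral ℤ (y / z) ∨ IsIntegral ℤ (y / x) ∨
      IsIntegral ℤ (z / x) ∨ IsIntegral ℤ (x / y) ∨ IsIntegral ℤ (z / y)) →
      ∃ m : ℕ, 0 < m ∧ (x / z) ^ m = 1 ∧ (y / z) ^ m = 1) ∧
    ((∀ w : NumberField.InfinitePlace K, w.IsReal) → Odd n →
      ¬ IsIntegral ℤ ((x + y) / z) ∧ ¬ IsIntegral ℤ ((z - x) / y) ∧
        ¬ IsIntegral ℤ ((z - y) / x)) := by
  refine ⟨fun hdiv => main hK h3 h4 h hx hy hz hdiv, fun hR hodd => ⟨fun hi => ?_, fun hi => ?_,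
    fun hi => ?_⟩⟩
  · have e1 : (x / z) ^ n + (y / z) ^ n = 1 := by
      rw [div_pow, div_pow, ← add_div, h, div_self (pow_ne_zero n hz)]
    rw [add_div] at hi
    rcases tr_odd_sum hR hodd h3 e1 hi with h5 | h5
    · exact div_ne_zero hx hz h5
    · exact div_ne_zero hy hz h5
  · have e1 : (z / y) ^ n + (-(x / y)) ^ n = 1 := by
      rw [hodd.neg_pow, div_pow, div_pow, ← sub_eq_add_neg, ← sub_div, ← h, add_sub_cancel_left,
        div_self (pow_ne_zero n hy)]
    rw [sub_div, sub_eq_add_neg] at hi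
    rcases tr_odd_sum hR hodd h3 e1 hi with h5 | h5
    · exact div_ne_zero hz hy h5
    · exact div_ne_zero hx hy (neg_eq_zero.1 h5)
  · have e1 : (z / x) ^ n + (-(y / x)) ^ n = 1 := by
      rw [hodd.neg_pow, div_pow, div_pow, ← sub_eq_add_neg, ← sub_div, ← h, add_sub_cancel_right,
        div_self (pow_ne_zero n hx)]
    rw [sub_div, sub_eq_add_neg] at hi
    rcases tr_odd_sum hR hodd h3 e1 hi with h5 | h5
    · exact div_ne_zero hz hx h5
    · exact div_ne_zero hy hx (neg_eq_zero.1 h5)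

end Pool.Agent.Results.MP_50a406_nt.IntegralPoints
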